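import Pool.Agent.H8.DE.Targets

/-!
MP_64fb07_lc, board det_modules, row PS: one pass.
-/

set_option autoImplicit false

namespace Pool.Agent.H56.DE

open Pool.Agent.H69.Sp Pool.Agent.H69.VR Pool.Agent.H8.VR Pool.Agent.H8.JS Pool.Agent.H8.MC
  Pool.Agent.H8.DE

/-- set the variables of a list to zero -/
def zr : List ℕ → P1
  | [] => .nop
  | x :: xs => .seq (.zer x) (zr xs)

theorem run_zr (B : ℕ) (xs : List ℕ) : ∀ σ : Z1, (run B (zr xs) σ).tb = σ.tb ∧
    ∀ i, (run B (zr xs) σ).v i = if i ∈ xs then 0 else σ.v i := by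
  induction xs with
  | nil => intro σ; exact ⟨rfl, fun i => by simp [zr, run]⟩
  | cons x xs ih =>
    intro σ
    obtain ⟨h1, h2⟩ := ih ⟨Function.update σ.v x 0, σ.tb⟩
    refine ⟨h1, fun i => ?_⟩
    have h3 : (run B (zr (x :: xs)) σ).v i =
        (run B (zr xs) ⟨Function.update σ.v x 0, σ.tb⟩).v i := rfl
    rw [h3, h2 i]
    by_cases hi : i ∈ xs
    · simp [hi]
    · by_cases hx : i = x
      · subst hx
        simp
      · simp [hi, hx]

/-- the body for one relation -/
theorem body (hEV : D_EV) (hCD : D_CD) (R : ℕ) (ar : ℕ → ℕ) (Φ : ℕ → Fm) (m : ℕ)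
    (i : ℕ) (hi : i < R) (hbd : (Φ i).bd ≤ m) (har : ar i < m) :
    ∃ q : P1, ∀ B N n : ℕ, n < N → Big R ar N B → ∀ σ : Z1, σ.v 0 = n → σ.v m = N →
      (∀ x, 1 ≤ x → x ≤ ar i → σ.v x < N) →
      (run B q σ).tb = ad R ar Φ N n σ.tb (i, (List.range (ar i)).map fun j => σ.v (j + 1)) ∧
        (∀ x ≤ ar i, (run B q σ).v x = σ.v x) ∧ (run B q σ).v m = N := by
  classical
  obtain ⟨pe, hpe⟩ := hEV R ar (Φ i) m hbd (m + 1) (Nat.lt_succ_self m)
  obtain ⟨pc, hpc⟩ := hCD R i ((List.range (ar i)).map fun j => j + 1) m (m + 2) hi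
    (by
      intro x hx
      rw [List.mem_map] at hx
      obtain ⟨j, hj, rfl⟩ := hx
      rw [List.mem_range] at hj
      omega) (by omega)
  refine ⟨.seq (zr ((List.range m).filter fun x => ar i < x)) (.seq pe (.seq pc
    (.seq (.zer (m + 3)) (.ife (m + 1) (m + 3) .nop (.put (m + 2)))))), ?_⟩
  intro B N n hn hB σ h0 hm hx
  obtain ⟨l, hl⟩ : ∃ l : List ℕ, l = (List.range (ar i)).map fun j => σ.v (j + 1) := ⟨_, rfl⟩
  have hlen : l.length = ar i := by rw [hl]; simp
  rw [← hl]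
  obtain ⟨σ1, hσ1⟩ : ∃ σ1, σ1 = run B (zr ((List.range m).filter fun x => ar i < x)) σ := ⟨_, rfl⟩
  obtain ⟨t1, v1⟩ := run_zr B ((List.range m).filter fun x => ar i < x) σ
  rw [← hσ1] at t1 v1
  have v1a : ∀ x ≤ ar i, σ1.v x = σ.v x := by
    intro x hx
    rw [v1, if_neg]
    intro h
    rw [List.mem_filter] at h
    have := of_decide_eq_true h.2
    omega
  have v1m : ∀ x, m ≤ x → σ1.v x = σ.v x := by
    intro x hx
    rw [v1, if_neg]
    intro h
    rw [List.mem_filter, List.mem_range] at h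
    omega
  have v1z : ∀ x, ar i < x → x < m → σ1.v x = 0 := by
    intro x hx hx'
    rw [v1, if_pos]
    rw [List.mem_filter, List.mem_range]
    exact ⟨hx', decide_eq_true hx⟩
  have v1l : ∀ x < m, σ1.v x = vl l n x := by
    intro x hx'
    unfold vl
    by_cases h : x = 0
    · rw [if_pos h, h, v1a 0 (Nat.zero_le _), h0]
    · rw [if_neg h]
      by_cases h2 : x ≤ ar i
      · rw [v1a x h2, hl, List.getD_eq_getElem?_getD, List.getElem?_map,
          List.getElem?_range (by omega)]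
        simp only [Option.map_some, Option.getD_some]
        congr 1
        omega
      · rw [v1z x (by omega) hx', List.getD_eq_default _ _ (by omega)]
  have hlt : ∀ x < m, σ1.v x < N := by
    intro x hx'
    by_cases h2 : x ≤ ar i
    · rw [v1a x h2]
      by_cases h : x = 0
      · rw [h, h0]
        exact hn
      · exact hx x (by omega) h2
    · rw [v1z x (by omega) hx']
      omega
  have c1 := hpe B N σ1 hlt ((v1m m le_rfl).trans hm) (by omega) hB
  have hst : St1 N (ET R ar N σ1.tb) (Φ i) σ1.v ↔ St1 N (ET R ar N σ.tb) (Φ i) (vl l n) := by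
    rw [t1]
    exact sat_congr fun x hx' => v1l x (lt_of_lt_of_le hx' hbd)
  obtain ⟨σ2, hσ2⟩ : ∃ σ2, σ2 = run B pe σ1 := ⟨_, rfl⟩
  obtain ⟨t2, v2, r2⟩ := c1
  rw [← hσ2] at t2 v2 r2
  have v2m : σ2.v m = N := by rw [v2 m (Nat.lt_succ_self m), v1m m le_rfl, hm]
  have v2a : ∀ x ≤ ar i, σ2.v x = σ.v x := by
    intro x hx'
    rw [v2 x (by omega), v1a x hx']
  have hmap : ((List.range (ar i)).map fun j => j + 1).map σ2.v = l := by
    rw [hl, List.map_map]
    refine List.map_congr_left fun j hj => ?_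
    rw [List.mem_range] at hj
    exact v2a (j + 1) (by omega)
  have c2 := hpc B σ2 (by
    intro x hx'
    rw [List.mem_map] at hx'
    obtain ⟨j, hj, rfl⟩ := hx'
    rw [List.mem_range] at hj
    show σ2.v (j + 1) < σ2.v m
    rw [v2m, v2a (j + 1) (by omega)]
    exact hx (j + 1) (by omega) (by omega)) (by
    rw [v2m, List.length_map, List.length_range]
    exact hB.2.2 i hi)
  rw [hmap, v2m] at c2
  obtain ⟨σ3, hσ3⟩ : ∃ σ3, σ3 = run B pc σ2 := ⟨_, rfl⟩
  obtain ⟨t3, v3, r3⟩ := c2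
  rw [← hσ3] at t3 v3 r3
  have hrun : run B (.seq (zr ((List.range m).filter fun x => ar i < x)) (.seq pe (.seq pc
      (.seq (.zer (m + 3)) (.ife (m + 1) (m + 3) .nop (.put (m + 2))))))) σ =
      run B (.ife (m + 1) (m + 3) .nop (.put (m + 2)))
        ⟨Function.update σ3.v (m + 3) 0, σ3.tb⟩ := by
    rw [hσ3, hσ2, hσ1]
    rfl
  rw [hrun]
  have e1 : Function.update σ3.v (m + 3) 0 (m + 1) = σ3.v (m + 1) :=
    Function.update_of_ne (by omega) _ _
  have e2 : Function.update σ3.v (m + 3) 0 (m + 2) = cd R N i l := by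
    rw [Function.update_of_ne (by omega), r3]
  have e3 : Function.update σ3.v (m + 3) 0 (m + 3) = 0 := Function.update_self _ _ _
  have ev : ∀ x, x ≤ m → Function.update σ3.v (m + 3) 0 x = σ2.v x := by
    intro x hx'
    rw [Function.update_of_ne (by omega), v3 x (by omega)]
  have hr : σ3.v (m + 1) = if St1 N (ET R ar N σ.tb) (Φ i) (vl l n) then 1 else 0 := by
    rw [v3 (m + 1) (by omega), r2]
    by_cases h : St1 N (ET R ar N σ.tb) (Φ i) (vl l n)
    · rw [if_pos h, if_pos (hst.2 h)]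
    · rw [if_neg h, if_neg fun h' => h (hst.1 h')]
  by_cases h : St1 N (ET R ar N σ.tb) (Φ i) (vl l n)
  · rw [if_pos h] at hr
    have h5 : run B (.ife (m + 1) (m + 3) .nop (.put (m + 2)))
        ⟨Function.update σ3.v (m + 3) 0, σ3.tb⟩ = ⟨Function.update σ3.v (m + 3) 0,
          Function.update σ3.tb (Function.update σ3.v (m + 3) 0 (m + 2)) true⟩ := by
      show (if Function.update σ3.v (m + 3) 0 (m + 1) = Function.update σ3.v (m + 3) 0 (m + 3)
        then _ else _) = _
      rw [e1, e3, hr, if_neg one_ne_zero]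
      rfl
    rw [h5]
    refine ⟨?_, fun x hx' => ?_, ?_⟩
    · show Function.update σ3.tb (Function.update σ3.v (m + 3) 0 (m + 2)) true = _
      unfold ad
      rw [if_pos h, e2, t3, t2, t1]
    · show Function.update σ3.v (m + 3) 0 x = σ.v x
      rw [ev x (by omega), v2a x hx']
    · show Function.update σ3.v (m + 3) 0 m = N
      rw [ev m le_rfl, v2m]
  · rw [if_neg h] at hr
    have h5 : run B (.ife (m + 1) (m + 3) .nop (.put (m + 2)))
        ⟨Function.update σ3.v (m + 3) 0, σ3.tb⟩ = ⟨Function.update σ3.v (m + 3) 0, σ3.tb⟩ := by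
      show (if Function.update σ3.v (m + 3) 0 (m + 1) = Function.update σ3.v (m + 3) 0 (m + 3)
        then _ else _) = _
      rw [e1, e3, hr, if_pos rfl]
      rfl
    rw [h5]
    refine ⟨?_, fun x hx' => ?_, ?_⟩
    · show σ3.tb = _
      unfold ad
      rw [if_neg h, t3, t2, t1]
    · show Function.update σ3.v (m + 3) 0 x = σ.v x
      rw [ev x (by omega), v2a x hx']
    · show Function.update σ3.v (m + 3) 0 m = N
      rw [ev m le_rfl, v2m]

theorem pf_PS (hEV : D_EV) (hCD : D_CD) (hTL : D_TL) : D_PS := by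
  intro R ar Φ m hm hR
  have key : ∀ K ≤ R, ∃ p : P1, ∀ B N n : ℕ, n < N → Big R ar N B →
      ∃ ls : List (ℕ × List ℕ), (∀ x, x ∈ ls ↔ x.1 < K ∧ x.2.length = ar x.1 ∧ ∀ y ∈ x.2, y < N) ∧
        ∀ σ : Z1, σ.v 0 = n → σ.v m = N →
          (run B p σ).tb = ls.foldl (ad R ar Φ N n) σ.tb ∧ (run B p σ).v 0 = n ∧
            (run B p σ).v m = N := by
    intro K
    induction K with
    | zero =>
      intro _
      refine ⟨.nop, fun B N n _ _ => ⟨[], fun x => by simp, fun σ h0 h1 => ⟨rfl, h0, h1⟩⟩⟩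
    | succ K ih =>
      intro hK
      obtain ⟨p, hp⟩ := ih (by omega)
      have hK' : K < R := hK
      obtain ⟨q, hq⟩ := body hEV hCD R ar Φ m K hK' (hR K hK').1 (hR K hK').2
      obtain ⟨p', hp'⟩ := hTL (ar K) m q (hR K hK').2
      refine ⟨.seq p p', fun B N n hn hB => ?_⟩
      obtain ⟨ls, hls, h1⟩ := hp B N n hn hB
      obtain ⟨ls', hls', h2⟩ := hp' B N n (fun l tb => ad R ar Φ N n tb (K, l))
        (by have := hB.1; omega) (fun σ h0 h1 h2 => hq B N n hn hB σ h0 h1 h2)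
      refine ⟨ls ++ ls'.map fun l => (K, l), fun x => ?_, fun σ h0 h3 => ?_⟩
      · rw [List.mem_append, hls, List.mem_map]
        constructor
        · rintro (h | ⟨l, hl, rfl⟩)
          · exact ⟨by omega, h.2⟩
          · have h4 := (hls' l).1 hl
            exact ⟨Nat.lt_succ_self K, h4⟩
        · rintro ⟨h4, h5⟩
          by_cases h6 : x.1 < K
          · exact Or.inl ⟨h6, h5⟩
          · have h7 : x.1 = K := by omega
            rw [h7] at h5
            exact Or.inr ⟨x.2, (hls' x.2).2 h5, Prod.ext h7.symm rfl⟩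
      · obtain ⟨a1, a2, a3⟩ := h1 σ h0 h3
        obtain ⟨b1, b2, b3⟩ := h2 (run B p σ) a2 a3
        refine ⟨?_, b2, b3⟩
        show (run B p' (run B p σ)).tb = _
        rw [b1, a1, List.foldl_append, List.foldl_map]
  obtain ⟨p, hp⟩ := key R le_rfl
  exact ⟨p, hp⟩

end Pool.Agent.H56.DE
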